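import Pool.Agent.Helper17.CR.Stmts

/-!
MP_c38931_co, module CASEB.
-/

set_option autoImplicit false

namespace Pool.Agent.Helper41.CR

open Finset Pool.Agent.Helper17.CR

universe u

/-- Sylow subgroups of a normal nilpotent subgroup, as subgroups of the whole group -/
theorem caseb_syl {G : Type u} [Group G] [Finite G] (N : Subgroup G) (hN : N.Normal)
    (hnil : Group.IsNilpotent N) (l : ℕ) (hl : l.Prime) (P : Sylow l N) :
    ((P : Subgroup N).map N.subtype).Normal ∧ IsPGroup l ((P : Subgroup N).map N.subtype) := by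
  have : Fact l.Prime := ⟨hl⟩
  have h1 : (P : Subgroup N).Normal := inferInstance
  have h2 : (P : Subgroup N).Characteristic := P.characteristic_of_normal h1
  exact ⟨ConjAct.normal_of_characteristic_of_normal, P.isPGroup'.map N.subtype⟩

theorem caseb_closure {G : Type u} [Group G] {x y : G} {l : ℕ} (hx : x ^ l = 1) (hy : y ^ l = 1)
    (hxy : x * y = y * x) : ∀ g ∈ Subgroup.closure ({x, y} : Set G), g ^ l = 1 := by
  have key : ∀ g ∈ Subgroup.closure ({x, y} : Set G), ∃ a b : ℤ, g = x ^ a * y ^ b := by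
    intro g hg
    have hc : Commute x y := hxy
    induction hg using Subgroup.closure_induction with
    | mem z hz =>
      rcases hz with h | h
      · exact ⟨1, 0, by rw [h]; simp⟩
      · rw [Set.mem_singleton_iff] at h
        exact ⟨0, 1, by rw [h]; simp⟩
    | one => exact ⟨0, 0, by simp⟩
    | mul z w _ _ hz hw =>
      obtain ⟨a, b, h1⟩ := hz
      obtain ⟨a', b', h2⟩ := hw
      refine ⟨a + a', b + b', ?_⟩
      have h3 : y ^ b * x ^ a' = x ^ a' * y ^ b := ((hc.symm.zpow_left b).zpow_right a').eq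
      rw [h1, h2, zpow_add, zpow_add]
      calc x ^ a * y ^ b * (x ^ a' * y ^ b') = x ^ a * (y ^ b * x ^ a') * y ^ b' := by group
        _ = x ^ a * (x ^ a' * y ^ b) * y ^ b' := by rw [h3]
        _ = x ^ a * x ^ a' * (y ^ b * y ^ b') := by group
    | inv z _ hz =>
      obtain ⟨a, b, h1⟩ := hz
      refine ⟨-a, -b, ?_⟩
      have h3 : y ^ (-b) * x ^ (-a) = x ^ (-a) * y ^ (-b) := ((hc.symm.zpow_left (-b)).zpow_right (-a)).eq
      rw [h1, mul_inv_rev, ← zpow_neg, ← zpow_neg, h3]
  intro g hg
  obtain ⟨a, b, h⟩ := key g hg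
  have hc : Commute (x ^ a) (y ^ b) := (Commute.zpow_left hxy a).zpow_right b
  rw [h, hc.mul_pow, ← zpow_natCast, ← zpow_natCast, ← zpow_mul, ← zpow_mul, mul_comm a, mul_comm b,
    zpow_mul, zpow_mul, zpow_natCast, zpow_natCast, hx, hy, one_zpow, one_zpow, mul_one]

theorem st_CASEB (hNC : ST_NC.{u}) (hCYC : ST_CYC.{u}) (hNILC : ST_NILC.{u}) (hMAXC : ST_MAXC.{u})
    (hABQ : ST_ABQ.{u}) (hORD : ST_ORD.{u}) (hLIN : ST_LIN.{u}) : ST_CASEB.{u} := by
  classical
  intro G _ _ _ p hpF V _ _ _ ρ hρ hnop q m M col hq hqp hM hMq hMne hMab hm hbig hodd hcol hfix hoth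
  have hpp : p.Prime := Fact.out
  -- elements of prime order
  have hcauchy : ∀ (N : Subgroup G) (l : ℕ), l.Prime → l ∣ Nat.card N → ∃ g ∈ N, orderOf g = l := by
    intro N l hl hd
    have : Fact l.Prime := ⟨hl⟩
    obtain ⟨g, hg⟩ := exists_prime_orderOf_dvd_card' l hd
    exact ⟨g.1, g.2, by rw [Subgroup.orderOf_coe]; exact hg⟩
  have hMcard : q ∣ Nat.card M := by
    have : Fact q.Prime := ⟨hq⟩
    obtain ⟨n, hn⟩ := IsPGroup.iff_card.1 hMq
    rcases Nat.eq_zero_or_pos n with h0 | h0
    · exfalso
      rw [h0, pow_zero] at hn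
      exact hMne (Subgroup.card_eq_one.1 hn)
    · rw [hn]; exact dvd_pow_self q h0.ne'
  obtain ⟨u0, hu0M, hu0⟩ := hcauchy M q hq hMcard
  -- colours and Sylow subgroups of normal nilpotent subgroups above M
  have hcard : ∀ N : Subgroup G, Nat.card N ∣ Nat.card G := fun N => Subgroup.card_subgroup_dvd_card N
  have hN1 : ∀ N : Subgroup G, N.Normal → M ≤ N → Group.IsNilpotent N → ∀ l : ℕ, l.Prime →
      l ∣ Nat.card N → l ≠ p ∧ (col l ↔ col q) := by
    intro N hN hMN hnil l hl hd
    have hlF : Fact l.Prime := ⟨hl⟩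
    obtain ⟨P⟩ : Nonempty (Sylow l N) := inferInstance
    obtain ⟨hPn, hPp⟩ := caseb_syl N hN hnil l hl P
    have hPne : (P : Subgroup N).map N.subtype ≠ ⊥ := by
      intro h
      rw [(Subgroup.map_eq_bot_iff_of_injective _ N.subtype_injective)] at h
      exact P.ne_bot_of_dvd_card hd h
    have hlp : l ≠ p := by
      intro h
      subst h
      exact hPne (hnop _ hPn hPp)
    refine ⟨hlp, ?_⟩
    by_cases hlq : l = q
    · rw [hlq]
    · have hPcard : l ∣ Nat.card ((P : Subgroup N).map N.subtype) := by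
        obtain ⟨n, hn⟩ := IsPGroup.iff_card.1 hPp
        rcases Nat.eq_zero_or_pos n with h0 | h0
        · exfalso
          rw [h0, pow_zero] at hn
          exact hPne (Subgroup.card_eq_one.1 hn)
        · rw [hn]; exact dvd_pow_self l h0.ne'
      obtain ⟨t, htP, ht⟩ := hcauchy _ l hl hPcard
      have hqF : Fact q.Prime := ⟨hq⟩
      have hdis : Disjoint ((P : Subgroup N).map N.subtype) M := IsPGroup.disjoint_of_ne l q hlq _ _ hPp hMq
      have hcomm := Subgroup.commute_of_normal_of_disjoint _ _ hPn hM hdis t u0 htP hu0M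
      have := hcol t u0 (by rw [ht]; exact hl) (by rw [ht]; exact hlp) (by rw [hu0]; exact hq)
        (by rw [hu0]; exact hqp) (by rw [ht, hu0]; exact hlq) hcomm.eq
      rwa [ht, hu0] at this
  have hN2 : ∀ N : Subgroup G, N.Normal → M ≤ N → Group.IsNilpotent N → IsCyclic N := by
    intro N hN hMN hnil
    refine hNILC N ?_
    intro l hlF P
    have hl : l.Prime := Fact.out
    by_cases hd : l ∣ Nat.card N
    · obtain ⟨hlp, hcl⟩ := hN1 N hN hMN hnil l hl hd
      have hl2 : l ≠ 2 := hodd l hl (hd.trans (hcard N)) hlp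
      refine hCYC P l hl hl2 P.isPGroup' ?_
      intro x y hx hy hxy
      by_contra hny
      have hinj : Function.Injective (fun z : P => ((z : N) : G)) := by
        intro z w h
        exact Subtype.ext (Subtype.ext h)
      have hox : orderOf ((x : N) : G) = l := by
        rw [Subgroup.orderOf_coe, Subgroup.orderOf_coe]; exact hx
      have hoy : orderOf ((y : N) : G) = l := by
        rw [Subgroup.orderOf_coe, Subgroup.orderOf_coe]; exact hy
      have hxy' : ((x : N) : G) * ((y : N) : G) = ((y : N) : G) * ((x : N) : G) :=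
        congrArg (fun z : P => ((z : N) : G)) hxy
      have hny' : ((y : N) : G) ∉ Subgroup.zpowers ((x : N) : G) := by
        intro h
        obtain ⟨i, hi⟩ := Subgroup.mem_zpowers_iff.1 h
        apply hny
        rw [Subgroup.mem_zpowers_iff]
        refine ⟨i, hinj ?_⟩
        show (((x ^ i : P) : N) : G) = ((y : N) : G)
        rw [← hi]
        push_cast
        rfl
      have hall := caseb_closure (l := l) (orderOf_dvd_iff_pow_eq_one.1 (dvd_of_eq hox))
        (orderOf_dvd_iff_pow_eq_one.1 (dvd_of_eq hoy)) hxy'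
      have h1 := hNC G p V ρ l m ((x : N) : G) ((y : N) : G) hl hlp hm hox hoy hxy' hny' (by
        intro g hg hg1
        have h2 : orderOf g ∣ l := orderOf_dvd_of_pow_eq_one (hall g hg)
        have h3 : orderOf g = l := by
          rcases (Nat.dvd_prime hl).1 h2 with h4 | h4
          · exact absurd (orderOf_eq_one_iff.1 h4) hg1
          · exact h4
        exact hfix g (by rw [h3]; exact hl) (by rw [h3]; exact hlp) (by rw [h3]; exact hcl))
      omega
    · have h1 : (P : Subgroup N) = ⊥ := by
        rw [← Subgroup.card_eq_one]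
        obtain ⟨n, hn⟩ := IsPGroup.iff_card.1 P.isPGroup'
        rcases Nat.eq_zero_or_pos n with h0 | h0
        · rw [hn, h0, pow_zero]
        · exfalso
          apply hd
          have h2 : l ∣ Nat.card (P : Subgroup N) := by
            rw [hn]; exact dvd_pow_self l h0.ne'
          exact h2.trans (Subgroup.card_subgroup_dvd_card _)
      have : Subsingleton (P : Subgroup N) := by
        rw [h1]; infer_instance
      exact isCyclic_of_subsingleton
  have hMnil : Group.IsNilpotent M := by
    have : Fact q.Prime := ⟨hq⟩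
    exact hMq.isNilpotent
  obtain ⟨A, hA, hMA, hAc, hAcent⟩ := hMAXC G M hM hN2 hMnil
  have hAnil : Group.IsNilpotent A := by
    have : IsCyclic A := hAc
    let : CommGroup A := IsCyclic.commGroup
    infer_instance
  have hcommA := hABQ G A hA hAc hAcent
  obtain ⟨g, hg⟩ := hAc.exists_generator
  have hgcard : orderOf (g : G) = Nat.card A := by
    rw [Subgroup.orderOf_coe]
    exact orderOf_eq_card_of_forall_mem_zpowers hg
  have haV : Nat.card A ≤ Nat.card V := by
    have h1 : orderOf (ρ (g : G)) = orderOf (g : G) := orderOf_injective ρ hρ (g : G)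
    have h2 : IsOfFinOrder (ρ (g : G)) := by
      rw [← orderOf_pos_iff, h1]
      exact orderOf_pos _
    have h3 := hLIN p V (ρ (g : G)) h2
    rw [h1, hgcard] at h3
    exact h3
  obtain ⟨l', hl', hl'p, hl'G, hl'c⟩ := hoth
  have hGA : Nat.card A * A.index = Nat.card G := Subgroup.card_mul_index A
  have hl'i : l' ∣ A.index := by
    rw [← hGA] at hl'G
    rcases hl'.dvd_mul.1 hl'G with h | h
    · exact absurd (hN1 A hA hMA hAnil l' hl' h).2 hl'c
    · exact h
  refine ⟨Nat.card A, Nat.card_pos, haV, ?_⟩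
  intro l j hl hlp hlc hd
  have hni : ¬ l ∣ A.index := by
    intro h
    have hll : l ≠ l' := by
      intro he
      rw [he] at hlc
      exact hl'c hlc
    obtain ⟨x, y, hx, hy, hxy⟩ := hORD G A hA hcommA l l' hl hl' hll h hl'i
    have := hcol x y (by rw [hx]; exact hl) (by rw [hx]; exact hlp) (by rw [hy]; exact hl')
      (by rw [hy]; exact hl'p) (by rw [hx, hy]; exact hll) hxy
    rw [hx, hy] at this
    exact hl'c (this.symm.trans hlc)
  rw [← hGA] at hd
  exact (Nat.Coprime.pow_left j ((Nat.Prime.coprime_iff_not_dvd hl).2 hni)).dvd_of_dvd_mul_right hd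

end Pool.Agent.Helper41.CR
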