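import Pool.Agent.Helper17.CR.Stmts

/-!
MP_c38931_co, module NC: two commuting elements of order `l` with few fixed points.
-/

set_option autoImplicit false

namespace Pool.Agent.Helper41.CR

open Finset Pool.Agent.Helper17.CR

universe u

theorem nc_perm_trivial (S : Type u) [Finite S] (l : ℕ) (hl : l.Prime) (hS : Nat.card S < l)
    (f : Equiv.Perm S) (hf : f ^ l = 1) : f = 1 := by
  classical
  have := Fintype.ofFinite S
  have h1 : orderOf f ∣ l := orderOf_dvd_of_pow_eq_one hf
  rcases (Nat.dvd_prime hl).1 h1 with h2 | h2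
  · exact orderOf_eq_one_iff.1 h2
  · exfalso
    have h3 : orderOf f ∣ Fintype.card (Equiv.Perm S) := orderOf_dvd_card
    rw [h2, Fintype.card_perm, hl.dvd_factorial, ← Nat.card_eq_fintype_card] at h3
    omega

/-- few fixed points of `a`: they are fixed by every element of order `l` commuting with `a` -/
theorem nc_fix {G : Type u} [Group G] {p : ℕ} {V : Type u} [AddCommGroup V] [Module (ZMod p) V] [Finite V]
    (ρ : G →* (V →ₗ[ZMod p] V)) (l : ℕ) (hl : l.Prime) (a e : G) (he : e ^ l = 1) (hc : a * e = e * a)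
    (hS : Nat.card {v : V // ρ a v = v} < l) (v : V) (hv : ρ a v = v) : ρ e v = v := by
  have hmem : ∀ (g : G), a * g = g * a → ∀ w : V, ρ a w = w → ρ a (ρ g w) = ρ g w := by
    intro g hg w hw
    rw [← Module.End.mul_apply, ← map_mul, hg, map_mul, Module.End.mul_apply, hw]
  have hc' : a * e⁻¹ = e⁻¹ * a := by
    have h1 : Commute a e := hc
    exact h1.inv_right.eq
  let f : Equiv.Perm {v : V // ρ a v = v} :=
    { toFun := fun w => ⟨ρ e w.1, hmem e hc w.1 w.2⟩
      invFun := fun w => ⟨ρ e⁻¹ w.1, hmem e⁻¹ hc' w.1 w.2⟩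
      left_inv := fun w => by
        apply Subtype.ext
        show ρ e⁻¹ (ρ e w.1) = w.1
        rw [← Module.End.mul_apply, ← map_mul, inv_mul_cancel, map_one, Module.End.one_apply]
      right_inv := fun w => by
        apply Subtype.ext
        show ρ e (ρ e⁻¹ w.1) = w.1
        rw [← Module.End.mul_apply, ← map_mul, mul_inv_cancel, map_one, Module.End.one_apply] }
  have hfn : ∀ (n : ℕ) (w : {v : V // ρ a v = v}), ((f ^ n) w).1 = ρ (e ^ n) w.1 := by
    intro n
    induction n with
    | zero => intro w; simp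
    | succ n ih =>
      intro w
      rw [pow_succ', Equiv.Perm.mul_apply]
      show ρ e ((f ^ n) w).1 = _
      rw [ih, pow_succ', map_mul, Module.End.mul_apply]
  have hf : f ^ l = 1 := by
    apply Equiv.ext
    intro w
    apply Subtype.ext
    rw [hfn, he, map_one]
    rfl
  have h1 := nc_perm_trivial _ l hl hS f hf
  have h2 := congrArg (fun g : Equiv.Perm {v : V // ρ a v = v} => (g ⟨v, hv⟩).1) h1
  exact h2

theorem st_NC : ST_NC.{u} := by
  classical
  intro G _ _ p _ V _ _ _ ρ l m x y hl hlp hm hx hy hxy hnot hfix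
  have : Fact l.Prime := ⟨hl⟩
  have : NeZero l := ⟨hl.ne_zero⟩
  have hxl : x ^ l = 1 := by rw [← hx]; exact pow_orderOf_eq_one x
  have hyl : y ^ l = 1 := by rw [← hy]; exact pow_orderOf_eq_one y
  have hcom : Commute x y := hxy
  have hxE : x ∈ Subgroup.closure ({x, y} : Set G) := Subgroup.subset_closure (by simp)
  have hyE : y ∈ Subgroup.closure ({x, y} : Set G) := Subgroup.subset_closure (by simp)
  have hy1 : y ≠ 1 := by
    intro h
    rw [h, orderOf_one] at hy
    exact hl.one_lt.ne hy
  have hx1 : x ≠ 1 := by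
    intro h
    rw [h, orderOf_one] at hx
    exact hl.one_lt.ne hx
  -- the generators of the subgroups of order l
  have hpowmod : ∀ n : ℕ, y ^ n = y ^ (n % l) := by
    intro n
    conv_lhs => rw [← Nat.div_add_mod n l]
    rw [pow_add, pow_mul, hyl, one_pow, one_mul]
  have hpowz : ∀ i j : ZMod l, y ^ (i.val * j.val) = y ^ (i * j).val := by
    intro i j
    rw [ZMod.val_mul, hpowmod]
  have hai : ∀ i : ZMod l, x * y ^ i.val ≠ 1 := by
    intro i h
    by_cases hi : i = 0
    · rw [hi, ZMod.val_zero, pow_zero, mul_one] at h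
      exact hx1 h
    · apply hnot
      have h1 : y ^ i.val = x⁻¹ := (inv_eq_of_mul_eq_one_right h).symm
      have h2 : y ^ (i.val * (i⁻¹).val) = y := by
        rw [hpowz, mul_inv_cancel₀ hi]
        by_cases h1l : l = 1
        · exact absurd h1l hl.one_lt.ne'
        · rw [ZMod.val_one'' h1l, pow_one]
      rw [← h2, pow_mul, h1]
      exact Subgroup.pow_mem _ (Subgroup.inv_mem _ (Subgroup.mem_zpowers x)) _
  have haiE : ∀ i : ZMod l, x * y ^ i.val ∈ Subgroup.closure ({x, y} : Set G) := fun i =>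
    Subgroup.mul_mem _ hxE (Subgroup.pow_mem _ hyE _)
  have hail : ∀ i : ZMod l, (x * y ^ i.val) ^ l = 1 := by
    intro i
    rw [(hcom.pow_right i.val).mul_pow, hxl, one_mul, ← pow_mul, mul_comm, pow_mul, hyl, one_pow]
  -- norms
  let NN : G → V → V := fun a v => ∑ j : ZMod l, ρ (a ^ j.val) v
  have hNfix : ∀ a : G, a ^ l = 1 → ∀ v, ρ a (NN a v) = NN a v := by
    intro a ha v
    show ρ a (∑ j : ZMod l, ρ (a ^ j.val) v) = ∑ j : ZMod l, ρ (a ^ j.val) v
    rw [map_sum]
    have h1 : ∀ j : ZMod l, ρ a (ρ (a ^ j.val) v) = ρ (a ^ (j + 1).val) v := by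
      intro j
      rw [← Module.End.mul_apply, ← map_mul, ← pow_succ']
      have h2 : a ^ (j.val + 1) = a ^ (j + 1).val := by
        have h3 : ∀ n : ℕ, a ^ n = a ^ (n % l) := by
          intro n
          conv_lhs => rw [← Nat.div_add_mod n l]
          rw [pow_add, pow_mul, ha, one_pow, one_mul]
        have h4 : ((j.val + 1 : ℕ) : ZMod l) = j + 1 := by
          rw [Nat.cast_add, ZMod.natCast_zmod_val, Nat.cast_one]
        rw [h3, ← ZMod.val_natCast, h4]
      rw [h2]
    rw [Finset.sum_congr rfl (fun j _ => h1 j)]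
    exact Fintype.sum_equiv (Equiv.addRight (1 : ZMod l)) _ _ (fun j => rfl)
  have hNsub : ∀ a : G, ∀ v w, NN a (v - w) = NN a v - NN a w := by
    intro a v w
    show ∑ j : ZMod l, ρ (a ^ j.val) (v - w) = ∑ j : ZMod l, ρ (a ^ j.val) v - ∑ j : ZMod l, ρ (a ^ j.val) w
    rw [← Finset.sum_sub_distrib]
    exact Finset.sum_congr rfl (fun j _ => map_sub _ _ _)
  -- the identity
  have hid : ∀ v : V, (∑ i : ZMod l, NN (x * y ^ i.val) v) + NN y v = NN x (NN y v) + l • v := by
    intro v
    have h1 : ∀ i : ZMod l, NN (x * y ^ i.val) v = ∑ j : ZMod l, ρ (x ^ j.val) (ρ (y ^ (i * j).val) v) := by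
      intro i
      refine Finset.sum_congr rfl fun j _ => ?_
      rw [(hcom.pow_right i.val).mul_pow, ← pow_mul, hpowz, map_mul, Module.End.mul_apply]
    rw [Finset.sum_congr rfl (fun i _ => h1 i), Finset.sum_comm]
    have h2 : ∀ j : ZMod l, ∑ i : ZMod l, ρ (x ^ j.val) (ρ (y ^ (i * j).val) v) =
        if j = 0 then l • v else ρ (x ^ j.val) (NN y v) := by
      intro j
      split_ifs with hj
      · subst hj
        rw [Finset.sum_congr rfl (fun i _ => by
          rw [mul_zero, ZMod.val_zero, pow_zero, pow_zero, map_one, Module.End.one_apply,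
            Module.End.one_apply]), Finset.sum_const, Finset.card_univ, ZMod.card]
      · rw [← map_sum]
        congr 1
        exact Fintype.sum_equiv (Equiv.mulRight₀ j hj) _ _ (fun i => rfl)
    rw [Finset.sum_congr rfl (fun j _ => h2 j)]
    have h3 : NN x (NN y v) = ∑ j : ZMod l, ρ (x ^ j.val) (NN y v) := rfl
    rw [h3, ← Finset.add_sum_erase _ _ (Finset.mem_univ (0 : ZMod l)),
      ← Finset.add_sum_erase _ (fun j : ZMod l => ρ (x ^ j.val) (NN y v)) (Finset.mem_univ (0 : ZMod l)),
      if_pos rfl]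
    have h4 : ∑ j ∈ (univ : Finset (ZMod l)).erase 0, (if j = 0 then l • v else ρ (x ^ j.val) (NN y v)) =
        ∑ j ∈ (univ : Finset (ZMod l)).erase 0, ρ (x ^ j.val) (NN y v) := by
      refine Finset.sum_congr rfl fun j hj => ?_
      rw [if_neg (Finset.ne_of_mem_erase hj)]
    rw [h4]
    have h5 : ρ (x ^ (0 : ZMod l).val) (NN y v) = NN y v := by
      rw [ZMod.val_zero, pow_zero, map_one, Module.End.one_apply]
    rw [h5]
    abel
  have hlunit : IsUnit ((l : ℕ) : ZMod p) := by
    rw [ZMod.isUnit_iff_coprime]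
    exact (Nat.coprime_primes hl (Fact.out)).2 hlp
  have hlinj : ∀ v : V, l • v = 0 → v = 0 := by
    intro v hv
    have h1 : ((l : ℕ) : ZMod p) • v = 0 := by rw [Nat.cast_smul_eq_nsmul]; exact hv
    exact (hlunit.smul_eq_zero).1 h1
  rcases le_or_gt l m with hlm | hlm
  · -- embedding into the product of the fixed spaces
    let Φ : V → ((ZMod l → V) × V) := fun v => (fun i => NN (x * y ^ i.val) v, NN y v)
    let Ψ : V → ((i : ZMod l) → {w : V // ρ (x * y ^ i.val) w = w}) × {w : V // ρ y w = w} := fun v =>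
      (fun i => ⟨NN (x * y ^ i.val) v, hNfix _ (hail i) v⟩, ⟨NN y v, hNfix _ hyl v⟩)
    have hΨ : Function.Injective Ψ := by
      intro v w hvw
      have h1 : ∀ i : ZMod l, NN (x * y ^ i.val) v = NN (x * y ^ i.val) w := fun i =>
        congrArg Subtype.val (congrFun (congrArg Prod.fst hvw) i)
      have h2 : NN y v = NN y w := congrArg Subtype.val (congrArg Prod.snd hvw)
      have h3 := hid (v - w)
      have h4 : NN y (v - w) = 0 := by rw [hNsub, h2, sub_self]
      have h5 : ∀ i : ZMod l, NN (x * y ^ i.val) (v - w) = 0 := fun i => by rw [hNsub, h1, sub_self]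
      have h6 : NN x 0 = 0 := by
        show ∑ j : ZMod l, ρ (x ^ j.val) 0 = 0
        exact Finset.sum_eq_zero (fun j _ => map_zero _)
      rw [h4, Finset.sum_eq_zero (fun i _ => h5 i), h6, zero_add, zero_add] at h3
      exact sub_eq_zero.1 (hlinj _ h3.symm)
    have h7 := Nat.card_le_card_of_injective Ψ hΨ
    rw [Nat.card_prod, Nat.card_pi] at h7
    have h8 : ∏ i : ZMod l, Nat.card {w : V // ρ (x * y ^ i.val) w = w} ≤ m ^ l := by
      calc ∏ i : ZMod l, Nat.card {w : V // ρ (x * y ^ i.val) w = w} ≤ ∏ _i : ZMod l, m :=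
            Finset.prod_le_prod' (fun i _ => hfix _ (haiE i) (hai i))
        _ = m ^ l := by rw [Finset.prod_const, Finset.card_univ, ZMod.card]
    calc Nat.card V ≤ _ := h7
      _ ≤ m ^ l * m := Nat.mul_le_mul h8 (hfix y hyE hy1)
      _ = m ^ (l + 1) := by rw [pow_succ]
      _ ≤ m ^ (m + 1) := Nat.pow_le_pow_right hm (by omega)
  · -- every fixed vector is fixed by x
    have hW : ∀ v : V, ρ x v = v := by
      intro v
      have h1 : ∀ i : ZMod l, ρ x (NN (x * y ^ i.val) v) = NN (x * y ^ i.val) v := by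
        intro i
        refine nc_fix ρ l hl (x * y ^ i.val) x hxl ?_ (lt_of_le_of_lt (hfix _ (haiE i) (hai i)) hlm) _
          (hNfix _ (hail i) v)
        have h2 : Commute (x * y ^ i.val) x := Commute.mul_left (Commute.refl x) (hcom.symm.pow_left _)
        exact h2.eq
      have h2 : ρ x (NN y v) = NN y v :=
        nc_fix ρ l hl y x hxl hxy.symm (lt_of_le_of_lt (hfix y hyE hy1) hlm) _ (hNfix _ hyl v)
      have h3 : ρ x (NN x (NN y v)) = NN x (NN y v) := hNfix x hxl _
      have h4 : l • v = (∑ i : ZMod l, NN (x * y ^ i.val) v) + NN y v - NN x (NN y v) := by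
        rw [hid v]; abel
      have h5 : ρ x (l • v) = l • v := by
        rw [h4, map_sub, map_add, map_sum, h2, h3, Finset.sum_congr rfl (fun i _ => h1 i)]
      rw [map_nsmul] at h5
      have h6 : l • (ρ x v - v) = 0 := by rw [nsmul_sub, h5, sub_self]
      exact sub_eq_zero.1 (hlinj _ h6)
    have h7 : Nat.card V ≤ Nat.card {v : V // ρ x v = v} :=
      Nat.card_le_card_of_injective (fun v => (⟨v, hW v⟩ : {v : V // ρ x v = v}))
        (fun v w h => congrArg Subtype.val h)
    calc Nat.card V ≤ m := h7.trans (hfix x hxE hx1)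
      _ = m ^ 1 := (pow_one m).symm
      _ ≤ m ^ (m + 1) := Nat.pow_le_pow_right hm (by omega)

end Pool.Agent.Helper41.CR
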