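import Pool.Agent.Helper17.CR.Stmts2

set_option autoImplicit false

/-! SPF : numerical consequence of the bound for the smooth part of `X ^ 2 + D` -/

namespace Pool.Agent.Helper41.CR

open Pool.Agent.Helper17.CR Finset

theorem spf_exp (R lam : ℕ) : ∃ d0 : ℕ, ∀ d : ℕ, 2 ^ d ≤ ((R * d) ^ 100 + lam) ^ 2 → d ≤ d0 := by
  have h1 := tendsto_pow_const_div_const_pow_of_one_lt 200 (one_lt_two : (1 : ℝ) < 2)
  have hpos : (0 : ℝ) < 1 / ((R : ℝ) ^ 100 + lam + 1) ^ 2 := by positivity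
  have h2 := (h1.eventually (gt_mem_nhds hpos))
  rw [Filter.eventually_atTop] at h2
  obtain ⟨d1, hd1⟩ := h2
  refine ⟨max d1 1, fun d hd => ?_⟩
  by_contra hlt
  rw [not_le, max_lt_iff] at hlt
  have h3 := hd1 d hlt.1.le
  have hd' : ((2 : ℝ)) ^ d ≤ (((R : ℝ) * d) ^ 100 + lam) ^ 2 := by exact_mod_cast hd
  have hd1' : (1 : ℝ) ≤ d := by exact_mod_cast hlt.2.le
  have h4 : ((R : ℝ) * d) ^ 100 + lam ≤ ((R : ℝ) ^ 100 + lam + 1) * (d : ℝ) ^ 100 := by
    have h5 : (1 : ℝ) ≤ (d : ℝ) ^ 100 := one_le_pow₀ hd1'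
    have h6 : (0 : ℝ) ≤ lam := Nat.cast_nonneg _
    rw [mul_pow]
    nlinarith
  have h5 : (((R : ℝ) * d) ^ 100 + lam) ^ 2 ≤ ((R : ℝ) ^ 100 + lam + 1) ^ 2 * (d : ℝ) ^ 200 := by
    calc (((R : ℝ) * d) ^ 100 + lam) ^ 2 ≤ (((R : ℝ) ^ 100 + lam + 1) * (d : ℝ) ^ 100) ^ 2 := by
          gcongr
      _ = _ := by ring
  rw [div_lt_div_iff₀ (by positivity) (by positivity)] at h3
  nlinarith

theorem spf_dvd (B a b : ℕ) (ha : a ≠ 0) (hb : b ≠ 0)
    (h : ∀ l j : ℕ, l.Prime → B < l → l ^ j ∣ a → l ^ j ∣ b) :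
    a ∣ (∏ p ∈ (range (B + 1)).filter Nat.Prime, p ^ a.factorization p) * b := by
  have hP0 : (∏ p ∈ (range (B + 1)).filter Nat.Prime, p ^ a.factorization p) ≠ 0 :=
    Finset.prod_ne_zero_iff.2 fun p hp => pow_ne_zero _ (Finset.mem_filter.1 hp).2.ne_zero
  rw [← Nat.factorization_le_iff_dvd ha (mul_ne_zero hP0 hb)]
  intro l
  by_cases hl : l.Prime
  · rw [Nat.factorization_mul hP0 hb, Finsupp.add_apply]
    by_cases hlB : l ≤ B
    · have h1 : l ^ a.factorization l ∣ ∏ p ∈ (range (B + 1)).filter Nat.Prime, p ^ a.factorization p :=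
        Finset.dvd_prod_of_mem (fun p => p ^ a.factorization p)
          (Finset.mem_filter.2 ⟨Finset.mem_range.2 (by omega), hl⟩)
      have h2 := (hl.pow_dvd_iff_le_factorization hP0).1 h1
      omega
    · have h1 := h l (a.factorization l) hl (by omega) (Nat.ordProj_dvd a l)
      have h2 := (hl.pow_dvd_iff_le_factorization hb).1 h1
      omega
  · rw [Nat.factorization_eq_zero_of_not_prime a hl]
    exact Nat.zero_le _

theorem st_SPF (hSP : ST_SP) : ST_SPF := by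
  intro lam R hlam
  obtain ⟨X0, hX0⟩ := hSP (4 * lam - 1) (2 * lam) (by omega)
  obtain ⟨d0, hd0⟩ := spf_exp R lam
  refine ⟨X0 ^ 2 + lam + ((R * d0) ^ 100 + lam), ?_⟩
  intro r k s d α hr hrR hd hk hα hdk hl
  -- the number `x`
  have hex : ∃ x : ℕ, ((x : ℤ) ^ 2 + (4 * lam - 1) = 4 * ((k : ℤ) + α)) ∧ s ≤ x ∧
      ((k : ℤ) + α) ≠ 0 := by
    rcases hα with h | h
    · refine ⟨2 * s + 1, ?_, by omega, ?_⟩
      · rw [hk, h]; push_cast; ring
      · rw [hk, h]; positivity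
    · rcases Nat.eq_zero_or_pos s with h0 | h0
      · refine ⟨1, ?_, by omega, ?_⟩
        · rw [hk, h, h0]; push_cast; ring
        · rw [hk, h, h0]; push_cast; omega
      · obtain ⟨t, rfl⟩ : ∃ t, s = t + 1 := ⟨s - 1, by omega⟩
        refine ⟨2 * t + 1, ?_, by omega, ?_⟩
        · rw [hk, h]; push_cast; ring
        · rw [hk, h]; push_cast; intro h2; nlinarith
  obtain ⟨x, hx, hsx, hne⟩ := hex
  have hkx : k ≤ x ^ 2 + lam := by
    have h1 : (k : ℤ) ≤ (x : ℤ) ^ 2 + lam := by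
      rw [hk]
      have : (s : ℤ) ≤ x := by exact_mod_cast hsx
      have h2 : (0 : ℤ) ≤ s := Nat.cast_nonneg _
      nlinarith
    exact_mod_cast h1
  rcases Nat.lt_or_ge x X0 with hxX | hxX
  · have h1 : x ^ 2 ≤ X0 ^ 2 := Nat.pow_le_pow_left hxX.le 2
    omega
  have hsm := hX0 x hxX
  have hD : ((4 * lam - 1 : ℕ) : ℤ) = 4 * lam - 1 := by omega
  have ha0 : x ^ 2 + (4 * lam - 1) ≠ 0 := by omega
  have hrd : r * d ≠ 0 := Nat.mul_ne_zero (by omega) (by omega)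
  have hdv := spf_dvd (2 * lam) (x ^ 2 + (4 * lam - 1)) (r * d) ha0 hrd (by
    intro l j hlp hlB hlj
    have hnd : ¬ l ∣ 2 * lam := fun h => absurd (Nat.le_of_dvd (by omega) h) (by omega)
    refine hl l j hlp hnd ?_
    have h1 : ((l : ℤ) ^ j) ∣ 4 * ((k : ℤ) + α) := by
      rw [← hx, ← hD]
      exact_mod_cast hlj
    refine IsCoprime.dvd_of_dvd_mul_left ?_ h1
    apply IsCoprime.pow_left
    rw [show (4 : ℤ) = ((4 : ℕ) : ℤ) by norm_num, Nat.isCoprime_iff_coprime]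
    refine (Nat.Prime.coprime_iff_not_dvd hlp).2 ?_
    intro h4
    have h5 : l ∣ 2 := by
      have : l ∣ 2 ^ 2 := by simpa using h4
      exact hlp.dvd_of_dvd_pow this
    exact hnd (h5.trans (Dvd.intro _ rfl)))
  set Sm := ∏ p ∈ (range (2 * lam + 1)).filter Nat.Prime, p ^ ex (4 * lam - 1) p x with hSm
  have hle : x ^ 2 + (4 * lam - 1) ≤ Sm * (r * d) := by
    refine Nat.le_of_dvd ?_ hdv
    refine Nat.mul_pos (Finset.prod_pos fun p hp => pow_pos (Finset.mem_filter.1 hp).2.pos _) ?_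
    exact Nat.pos_of_ne_zero hrd
  have hx2 : x ^ 2 ≤ Sm * (R * d) :=
    (Nat.le_add_right _ _).trans (hle.trans (Nat.mul_le_mul_left _ (Nat.mul_le_mul_right _ hrR)))
  have hxlt : x ≤ (R * d) ^ 50 := by
    by_contra hno
    rw [not_le] at hno
    have h1 : x ^ 100 ≤ Sm ^ 50 * (R * d) ^ 50 := by
      calc x ^ 100 = (x ^ 2) ^ 50 := by rw [← pow_mul]
        _ ≤ (Sm * (R * d)) ^ 50 := Nat.pow_le_pow_left hx2 50
        _ = _ := by rw [mul_pow]
    have hx0 : 0 < x := lt_of_le_of_lt (Nat.zero_le _) hno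
    have h2 : Sm ^ 50 * (R * d) ^ 50 ≤ x ^ 99 * (R * d) ^ 50 := Nat.mul_le_mul_right _ hsm.le
    have h3 : x ^ 99 * (R * d) ^ 50 < x ^ 99 * x := Nat.mul_lt_mul_of_pos_left hno (pow_pos hx0 _)
    have h4 : x ^ 99 * x = x ^ 100 := by rw [← pow_succ]
    omega
  have hk1 : k ≤ (R * d) ^ 100 + lam := by
    refine hkx.trans (Nat.add_le_add_right ?_ _)
    calc x ^ 2 ≤ ((R * d) ^ 50) ^ 2 := Nat.pow_le_pow_left hxlt 2
      _ = _ := by rw [← pow_mul]
  have hdd : d ≤ d0 := hd0 d (hdk.trans (Nat.pow_le_pow_left hk1 2))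
  have h5 : (R * d) ^ 100 ≤ (R * d0) ^ 100 := Nat.pow_le_pow_left (Nat.mul_le_mul_left _ hdd) 100
  omega

end Pool.Agent.Helper41.CR

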