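import Pool.Agent.Helper17.CR.Stmts2

set_option autoImplicit false

/-! WRO : Wronskians of linearly independent polynomials -/

namespace Pool.Agent.Helper41.CR

open Pool.Agent.Helper17.CR Polynomial

theorem wro_natDegree (f : ℤ[X]) (i d : ℕ) (hf : f.natDegree ≤ d) :
    (X ^ i * hasseDeriv i f).natDegree ≤ d := by
  rcases Nat.lt_or_ge f.natDegree i with h | h
  · rw [hasseDeriv_eq_zero_of_lt_natDegree _ _ h, mul_zero, natDegree_zero]
    exact Nat.zero_le _
  · refine natDegree_mul_le.trans ?_
    have h1 := natDegree_hasseDeriv_le f i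
    have h2 : (X ^ i : ℤ[X]).natDegree ≤ i := natDegree_X_pow_le i
    omega

theorem wro_coeff (f : ℤ[X]) (i d : ℕ) :
    (X ^ i * hasseDeriv i f).coeff d = f.coeff d * (d.choose i : ℤ) := by
  rcases Nat.lt_or_ge d i with h | h
  · rw [coeff_X_pow_mul', if_neg (by omega), Nat.choose_eq_zero_of_lt h, Nat.cast_zero, mul_zero]
  · rw [coeff_X_pow_mul', if_pos h, hasseDeriv_coeff, Nat.sub_add_cancel h, mul_comm]

theorem wro_coeff_prod {ι : Type} (s : Finset ι) (F : ι → ℤ[X]) (d : ι → ℕ)
    (h : ∀ i ∈ s, (F i).natDegree ≤ d i) :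
    (∏ i ∈ s, F i).coeff (∑ i ∈ s, d i) = ∏ i ∈ s, (F i).coeff (d i) ∧
      (∏ i ∈ s, F i).natDegree ≤ ∑ i ∈ s, d i := by
  classical
  induction s using Finset.induction_on with
  | empty => simp
  | insert a s ha ih =>
    have h1 := ih (fun i hi => h i (Finset.mem_insert_of_mem hi))
    have h2 := h a (Finset.mem_insert_self a s)
    rw [Finset.prod_insert ha, Finset.sum_insert ha, Finset.prod_insert ha]
    refine ⟨?_, ?_⟩
    · rw [coeff_mul_add_eq_of_natDegree_le h2 h1.2, h1.1]
    · exact natDegree_mul_le.trans (Nat.add_le_add h2 h1.2)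

theorem wro_coeff_det {n : ℕ} (M : Matrix (Fin n) (Fin n) ℤ[X]) (d : Fin n → ℕ)
    (h : ∀ i j, (M i j).natDegree ≤ d j) :
    M.det.coeff (∑ j, d j) = (Matrix.of fun i j => (M i j).coeff (d j)).det := by
  rw [Matrix.det_apply', Matrix.det_apply', finsetSum_coeff]
  refine Finset.sum_congr rfl fun σ _ => ?_
  have h1 : (((Equiv.Perm.sign σ : ℤˣ) : ℤ) : ℤ[X]) = C ((Equiv.Perm.sign σ : ℤˣ) : ℤ) := by simp
  rw [h1, coeff_C_mul, (wro_coeff_prod Finset.univ (fun j => M (σ j) j) d (fun j _ => h _ j)).1]
  simp only [Matrix.of_apply, Int.cast_id]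

theorem wro_choose {n : ℕ} (d : Fin n → ℕ) (hd : Function.Injective d) :
    (Matrix.of fun i j : Fin n => ((d j).choose i : ℤ)).det ≠ 0 := by
  have h1 := Matrix.det_eval_matrixOfPolynomials_eq_det_vandermonde (fun i : Fin n => (d i : ℤ))
      (fun i => descPochhammer ℤ i)
      (fun i => descPochhammer_natDegree ℤ i)
      (fun i => monic_descPochhammer ℤ i)
  have h2 : (Matrix.vandermonde (fun i : Fin n => (d i : ℤ))).det ≠ 0 := by
    rw [Matrix.det_vandermonde_ne_zero_iff]
    intro a b hab
    have hab' : (d a : ℤ) = (d b : ℤ) := hab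
    exact hd (by exact_mod_cast hab')
  intro h0
  apply h2
  rw [h1]
  have h3 : (Matrix.of fun i j : Fin n => (descPochhammer ℤ j).eval (d i : ℤ)) =
      Matrix.of fun i j : Fin n => ((Nat.factorial (j : ℕ) : ℕ) : ℤ) *
        (Matrix.of fun i j : Fin n => ((d j).choose i : ℤ)).transpose i j := by
    ext i j
    simp only [Matrix.of_apply, Matrix.transpose_apply]
    rw [descPochhammer_eval_eq_descFactorial, Nat.descFactorial_eq_factorial_mul_choose]
    push_cast
    rfl
  rw [h3, Matrix.det_mul_row, Matrix.det_transpose, h0, mul_zero]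

theorem wro_distinct {n : ℕ} (f : Fin n → ℤ[X]) (h0 : ∀ j, f j ≠ 0)
    (hd : Function.Injective fun j => (f j).natDegree) :
    (Matrix.of fun i j : Fin n => hasseDeriv (i : ℕ) (f j)).det ≠ 0 := by
  intro h
  have h1 : (Matrix.of fun i j : Fin n => X ^ (i : ℕ) * hasseDeriv (i : ℕ) (f j)).det = 0 := by
    have h2 := Matrix.det_mul_column (fun i : Fin n => (X ^ (i : ℕ) : ℤ[X]))
      (Matrix.of fun i j : Fin n => hasseDeriv (i : ℕ) (f j))
    rw [h, mul_zero] at h2
    exact h2
  have h2 := wro_coeff_det (Matrix.of fun i j : Fin n => X ^ (i : ℕ) * hasseDeriv (i : ℕ) (f j))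
    (fun j => (f j).natDegree) (fun i j => wro_natDegree _ _ _ le_rfl)
  rw [h1, coeff_zero] at h2
  have h3 : (Matrix.of fun i j : Fin n => ((Matrix.of fun i j : Fin n =>
      X ^ (i : ℕ) * hasseDeriv (i : ℕ) (f j)) i j).coeff (f j).natDegree) =
      Matrix.of fun i j : Fin n => (f j).leadingCoeff *
        (Matrix.of fun i j : Fin n => (((f j).natDegree).choose i : ℤ)) i j := by
    ext i j
    simp only [Matrix.of_apply]
    rw [wro_coeff]
    rfl
  rw [h3, Matrix.det_mul_row] at h2
  have h4 : ∏ j, (f j).leadingCoeff ≠ 0 :=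
    Finset.prod_ne_zero_iff.2 fun j _ => leadingCoeff_ne_zero.2 (h0 j)
  exact mul_ne_zero h4 (wro_choose _ hd) h2.symm

theorem wro_step {n : ℕ} (f : Fin n → ℤ[X]) (hf : LinearIndependent ℤ f) (a b : Fin n) (hab : a ≠ b)
    (u v : ℤ) (hu : u ≠ 0) :
    LinearIndependent ℤ (Function.update f b (C u * f b + C v * f a)) := by
  rw [Fintype.linearIndependent_iff] at hf ⊢
  intro c hc
  have hsum : ∑ i, ((if i = b then u * c b else c i) + (if i = a then v * c b else 0)) • f i = 0 := by
    rw [← hc]
    simp only [add_smul, Finset.sum_add_distrib]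
    have h1 : ∑ i, (if i = a then v * c b else 0) • f i = (v * c b) • f a := by
      rw [Finset.sum_eq_single a]
      · rw [if_pos rfl]
      · intro i _ hi; rw [if_neg hi, zero_smul]
      · intro h; exact absurd (Finset.mem_univ a) h
    rw [h1, ← Finset.add_sum_erase Finset.univ _ (Finset.mem_univ b),
      ← Finset.add_sum_erase Finset.univ (fun i => c i • Function.update f b (C u * f b + C v * f a) i)
        (Finset.mem_univ b)]
    have h2 : ∑ x ∈ Finset.univ.erase b, (if x = b then u * c b else c x) • f x =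
        ∑ x ∈ Finset.univ.erase b, c x • Function.update f b (C u * f b + C v * f a) x := by
      refine Finset.sum_congr rfl fun i hi => ?_
      have hib := (Finset.mem_erase.1 hi).1
      rw [if_neg hib, Function.update_of_ne hib]
    rw [h2, if_pos rfl, Function.update_self]
    simp only [zsmul_eq_mul, Int.cast_mul, smul_add]
    have hCu : (C u : ℤ[X]) = (u : ℤ[X]) := by simp
    have hCv : (C v : ℤ[X]) = (v : ℤ[X]) := by simp
    rw [hCu, hCv]
    ring
  have h1 := hf _ hsum
  have h2 : c b = 0 := by
    have h3 := h1 b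
    rw [if_pos rfl, if_neg hab.symm, add_zero] at h3
    exact (mul_eq_zero.1 h3).resolve_left hu
  intro i
  have h3 := h1 i
  rw [h2] at h3
  by_cases hib : i = b
  · rw [hib]; exact h2
  · rw [if_neg hib] at h3
    by_cases hia : i = a
    · rw [if_pos hia, mul_zero, add_zero] at h3; exact h3
    · rw [if_neg hia, add_zero] at h3; exact h3

theorem wro_det_step {n : ℕ} (f : Fin n → ℤ[X]) (a b : Fin n) (hab : a ≠ b) (u v : ℤ) :
    (Matrix.of fun i j : Fin n => hasseDeriv (i : ℕ)
      (Function.update f b (C u * f b + C v * f a) j)).det =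
    C u * (Matrix.of fun i j : Fin n => hasseDeriv (i : ℕ) (f j)).det := by
  set M : Matrix (Fin n) (Fin n) ℤ[X] := Matrix.of fun i j : Fin n => hasseDeriv (i : ℕ) (f j) with hM
  have e1 : C u * M.det = (M.updateCol b (C u • fun k => M k b)).det := by
    rw [Matrix.det_updateCol_smul, Matrix.updateCol_eq_self]
  rw [e1, ← Matrix.det_updateCol_add_smul_self
    (M.updateCol b (C u • fun k => M k b)) hab.symm (C v)]
  congr 1
  ext1 i j
  by_cases hj : j = b
  · subst hj
    rw [Matrix.updateCol_self, Matrix.updateCol_self, Matrix.updateCol_ne hab]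
    simp only [Matrix.of_apply, Function.update_self, map_add, Pi.smul_apply, smul_eq_mul, hM]
    rw [← smul_eq_C_mul, ← smul_eq_C_mul, LinearMap.map_smul_of_tower, LinearMap.map_smul_of_tower,
      smul_eq_C_mul, smul_eq_C_mul]
  · rw [Matrix.updateCol_ne hj, Matrix.updateCol_ne hj]
    simp only [Matrix.of_apply, Function.update_of_ne hj, hM]

theorem wro_main : ∀ (N n : ℕ) (f : Fin n → ℤ[X]), ∑ j, (f j).natDegree = N →
    LinearIndependent ℤ f → (Matrix.of fun i j : Fin n => hasseDeriv (i : ℕ) (f j)).det ≠ 0 := by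
  intro N
  induction N using Nat.strong_induction_on with
  | _ N ih =>
    intro n f hN hf
    by_cases hinj : Function.Injective fun j => (f j).natDegree
    · exact wro_distinct f (fun j => hf.ne_zero j) hinj
    · rw [Function.Injective] at hinj
      push Not at hinj
      obtain ⟨a, b, hd, hab⟩ := hinj
      have hd' : (f a).natDegree = (f b).natDegree := hd
      have hu : (f a).leadingCoeff ≠ 0 := leadingCoeff_ne_zero.2 (hf.ne_zero a)
      have hg := wro_step f hf a b hab (f a).leadingCoeff (-(f b).leadingCoeff) hu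
      set g := Function.update f b (C (f a).leadingCoeff * f b + C (-(f b).leadingCoeff) * f a)
        with hgdef
      have hgb : g b = C (f a).leadingCoeff * f b + C (-(f b).leadingCoeff) * f a := by
        rw [hgdef, Function.update_self]
      have hgle : (g b).natDegree ≤ (f b).natDegree := by
        rw [hgb]
        refine natDegree_add_le_of_degree_le (natDegree_C_mul_le _ _)
          ((natDegree_C_mul_le _ _).trans hd'.le)
      have hgc : (g b).coeff (f b).natDegree = 0 := by
        rw [hgb, coeff_add, coeff_C_mul, coeff_C_mul]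
        have h1 : (f a).coeff (f b).natDegree = (f a).leadingCoeff := by rw [← hd']; rfl
        rw [h1]
        show (f a).leadingCoeff * (f b).leadingCoeff + _ = 0
        ring
      have hlt : (g b).natDegree < (f b).natDegree := by
        have h1 := natDegree_le_pred hgle hgc
        by_cases h2 : (f b).natDegree = 0
        · exfalso
          rw [h2] at hgle hgc
          apply hg.ne_zero b
          rw [eq_C_of_natDegree_le_zero hgle, hgc, C_0]
        · omega
      have hdet := wro_det_step f a b hab (f a).leadingCoeff (-(f b).leadingCoeff)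
      have hsum : ∑ j, (g j).natDegree < N := by
        rw [← hN]
        refine Finset.sum_lt_sum ?_ ⟨b, Finset.mem_univ b, hlt⟩
        intro i _
        by_cases hib : i = b
        · rw [hib]; exact hlt.le
        · rw [hgdef, Function.update_of_ne hib]
      have h3 := ih _ hsum n g rfl hg
      intro h4
      rw [h4, mul_zero] at hdet
      exact h3 hdet

theorem st_WRO : ST_WRO := fun n f hf => wro_main _ n f rfl hf

end Pool.Agent.Helper41.CR

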